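import Mathlib

/-!
Independent elements of an abelian group with at most one element of order two from independent
elements modulo two.
-/

set_option autoImplicit false
set_option linter.all false

namespace Pool.Agent.TH958.T5

variable {G : Type} [AddCommGroup G]

theorem card_image_torsion {N : ℕ} {V : Type} [AddCommGroup V] [Finite V] (φ : G →+ V)
    (hφ : ∀ g : G, φ (g + g) = 0) (hfin : Set.Finite {g : G | g + g = 0})
    (h4 : Set.ncard {g : G | g + g = 0} ≤ N) :
    Nat.card ((AddCommGroup.torsion G).map φ) ≤ N := by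
  classical
  set W := (AddCommGroup.torsion G).map φ with hW
  have hch : ∀ w : W, ∃ t : G, t ∈ AddCommGroup.torsion G ∧ φ t = w.1 := by
    rintro ⟨w, t, ht, rfl⟩
    exact ⟨t, ht, rfl⟩
  choose t ht htw using hch
  set S : AddSubgroup G := AddSubgroup.closure (Set.range t) with hS
  haveI : Finite W := Subtype.finite
  have hST : S ≤ AddCommGroup.torsion G := by
    rw [hS, AddSubgroup.closure_le]
    rintro _ ⟨w, rfl⟩
    exact ht w
  have hfg : AddGroup.FG S := by
    rw [AddGroup.fg_iff_addSubgroup_fg]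
    exact ⟨(Set.finite_range t).toFinset, by rw [Set.Finite.coe_toFinset]⟩
  haveI : Module.Finite ℤ S := Module.Finite.iff_addGroup_fg.2 hfg
  have htor : AddMonoid.IsTorsion S := by
    rintro ⟨s, hs⟩
    have h1 := hST hs
    rw [AddCommGroup.mem_torsion] at h1
    rw [isOfFinAddOrder_iff_nsmul_eq_zero] at h1 ⊢
    obtain ⟨n, hn, hn'⟩ := h1
    exact ⟨n, hn, Subtype.ext hn'⟩
  haveI : Finite S := AddCommGroup.finite_of_fg_torsion S htor
  -- doubling
  let D : S →+ S := nsmulAddMonoidHom 2
  have hD : ∀ s : S, D s = s + s := fun s => two_nsmul s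
  let φS : S →+ V := φ.comp S.subtype
  have c1 : Nat.card S = Nat.card D.range * Nat.card D.ker := by
    rw [← AddSubgroup.card_mul_index D.ker, AddSubgroup.index_ker, mul_comm]
  have c2 : Nat.card S = Nat.card φS.range * Nat.card φS.ker := by
    rw [← AddSubgroup.card_mul_index φS.ker, AddSubgroup.index_ker, mul_comm]
  have c3 : Nat.card D.range ≤ Nat.card φS.ker := by
    apply Nat.card_le_card_of_injective (fun x : D.range => (⟨x.1, by
      obtain ⟨y, hy⟩ := x.2
      rw [AddMonoidHom.mem_ker, ← hy, hD]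
      exact hφ y.1⟩ : φS.ker))
    intro x y hxy
    exact Subtype.ext (congrArg (fun z : φS.ker => z.1) hxy)
  have c4 : Nat.card D.ker ≤ N := by
    refine le_trans ?_ h4
    rw [← Nat.card_coe_set_eq]
    haveI : Finite {g : G | g + g = 0} := hfin.to_subtype
    apply Nat.card_le_card_of_injective (fun x : D.ker => (⟨x.1.1, by
      have := x.2
      rw [AddMonoidHom.mem_ker, hD] at this
      exact congrArg (fun z : S => z.1) this⟩ : {g : G | g + g = 0}))
    intro x y hxy
    exact Subtype.ext (Subtype.ext (congrArg (fun z : {g : G | g + g = 0} => z.1) hxy))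
  have c5 : Nat.card W ≤ Nat.card φS.range := by
    apply Nat.card_le_card_of_injective (fun w : W => (⟨w.1, by
      refine ⟨⟨t w, AddSubgroup.subset_closure ⟨w, rfl⟩⟩, ?_⟩
      exact htw w⟩ : φS.range))
    intro x y hxy
    exact Subtype.ext (congrArg (fun z : φS.range => z.1) hxy)
  have c6 : 0 < Nat.card φS.ker := Nat.card_pos
  have c7 : Nat.card φS.range * Nat.card φS.ker ≤ N * Nat.card φS.ker := by
    calc Nat.card φS.range * Nat.card φS.ker = Nat.card D.range * Nat.card D.ker := by
          rw [← c2, c1]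
      _ ≤ Nat.card φS.ker * N := Nat.mul_le_mul c3 c4
      _ = N * Nat.card φS.ker := mul_comm _ _
  exact c5.trans (Nat.le_of_mul_le_mul_right c7 c6)

theorem exists_independent {ι : Type} [Fintype ι] (φ : G →+ (ι → ZMod 2))
    (hφ : Function.Surjective φ) (hfin : Set.Finite {g : G | g + g = 0})
    (h4 : Set.ncard {g : G | g + g = 0} ≤ 2) :
    ∃ x : Fin (Fintype.card ι - 1) → G, LinearIndependent ℤ x := by
  classical
  have h2 : ∀ v : ι → ZMod 2, v + v = 0 := fun v => by
    funext i
    exact CharTwo.add_self_eq_zero (v i)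
  set W0 := (AddCommGroup.torsion G).map φ with hW0
  have hc := card_image_torsion φ (fun g => by rw [map_add, h2]) hfin h4
  let W : Submodule (ZMod 2) (ι → ZMod 2) := AddSubgroup.toZModSubmodule 2 W0
  have hWm : ∀ v, v ∈ W ↔ v ∈ W0 := fun v => Iff.rfl
  have hcW : Nat.card W ≤ 2 := hc
  have hfW : Module.finrank (ZMod 2) W ≤ 1 := by
    have h1 := Module.natCard_eq_pow_finrank (K := ZMod 2) (V := W)
    rw [Nat.card_zmod] at h1
    rw [h1] at hcW
    by_contra hlt
    push Not at hlt
    have h3 : 2 ^ 2 ≤ 2 ^ Module.finrank (ZMod 2) W := Nat.pow_le_pow_right (by norm_num) hlt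
    omega
  have hq := Submodule.finrank_quotient_add_finrank W
  rw [Module.finrank_fintype_fun_eq_card] at hq
  have hn : Fintype.card ι - 1 ≤ Module.finrank (ZMod 2) ((ι → ZMod 2) ⧸ W) := by omega
  let b := Module.finBasis (ZMod 2) ((ι → ZMod 2) ⧸ W)
  have hlift : ∀ j : Fin (Fintype.card ι - 1), ∃ x : G,
      W.mkQ (φ x) = b (Fin.castLE hn j) := by
    intro j
    obtain ⟨v, hv⟩ := W.mkQ_surjective (b (Fin.castLE hn j))
    obtain ⟨x, rfl⟩ := hφ v
    exact ⟨x, hv⟩
  choose x hx using hlift
  refine ⟨x, ?_⟩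
  have hind : LinearIndependent (ZMod 2) (fun j => b (Fin.castLE hn j)) :=
    b.linearIndependent.comp _ (Fin.castLE_injective hn)
  -- descent
  have step : ∀ c : Fin (Fintype.card ι - 1) → ℤ, ∑ j, c j • x j ∈ AddCommGroup.torsion G →
      ∀ j, (2 : ℤ) ∣ c j := by
    intro c hcm j
    have h1 : φ (∑ j, c j • x j) ∈ W := ⟨_, hcm, rfl⟩
    have h3 : W.mkQ (φ (∑ j, c j • x j)) = 0 := by
      rw [Submodule.mkQ_apply, Submodule.Quotient.mk_eq_zero]; exact h1
    have h5 : ∑ j, (c j : ZMod 2) • b (Fin.castLE hn j) = 0 := by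
      rw [← h3, map_sum, map_sum]
      refine Finset.sum_congr rfl fun i _ => ?_
      rw [map_zsmul, map_zsmul, hx]
      exact Int.cast_smul_eq_zsmul (ZMod 2) (c i) _
    have h6 := Fintype.linearIndependent_iff.1 hind (fun j => (c j : ZMod 2)) h5 j
    exact (ZMod.intCast_zmod_eq_zero_iff_dvd (c j) 2).1 h6
  have descent : ∀ (N : ℕ) (c : Fin (Fintype.card ι - 1) → ℤ),
      ∑ j, c j • x j ∈ AddCommGroup.torsion G → ∀ j, (2 : ℤ) ^ N ∣ c j := by
    intro N
    induction N with
    | zero => intro c _ j; rw [pow_zero]; exact one_dvd _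
    | succ N ih =>
      intro c hcm j
      have h1 := step c hcm
      choose c' hc' using h1
      have h3 : ∑ j, c j • x j = 2 • ∑ j, c' j • x j := by
        rw [Finset.smul_sum]
        refine Finset.sum_congr rfl fun i _ => ?_
        rw [hc' i, two_nsmul, ← add_smul]
        congr 1
        ring
      have h5 : ∑ j, c' j • x j ∈ AddCommGroup.torsion G := by
        rw [h3, AddCommGroup.mem_torsion, isOfFinAddOrder_iff_nsmul_eq_zero] at hcm
        obtain ⟨n, hn0, hn1⟩ := hcm
        rw [AddCommGroup.mem_torsion, isOfFinAddOrder_iff_nsmul_eq_zero]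
        exact ⟨n * 2, by omega, by rw [mul_nsmul']; exact hn1⟩
      rw [hc' j, pow_succ, mul_comm ((2 : ℤ) ^ N)]
      exact mul_dvd_mul_left 2 (ih c' h5 j)
  rw [Fintype.linearIndependent_iff]
  intro c hc0 j
  by_contra hne
  have h1 : ∑ j, c j • x j ∈ AddCommGroup.torsion G := by rw [hc0]; exact zero_mem _
  obtain ⟨N, hN⟩ := exists_nat_gt |c j|
  have h3 := Int.le_of_dvd (abs_pos.2 hne) ((dvd_abs _ _).2 (descent N c h1 j))
  have h5 : (N : ℤ) < 2 ^ N := by exact_mod_cast Nat.lt_two_pow_self
  omega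


end Pool.Agent.TH958.T5
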