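import Pool.Agent.TH958.T5.Lb
import Pool.Agent.TH958.T4.Fin
import Pool.Agent.TH943.KD.Kd
import Pool.Agent.W313.Gr.Ord

/-!
Rank and order of vanishing for `y ^ 2 = x ((x - 1) ^ 2 - h ^ m)` and its twist by `h`,
`2 m = p ^ ν + 1`, over function fields.
-/

set_option autoImplicit false
set_option linter.all false
set_option maxHeartbeats 4000000

open Polynomial WeierstrassCurve WeierstrassCurve.Affine

namespace Pool.Agent.TH958.T5

open Pool.Agent.W343.BSD Pool.Agent.W309.RK Pool.Agent.TH958.T4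

open Classical in
/-- Rank and order are at least and at most `ρ`, and equal to it if the rank is at most the order. -/
def RankOrder (k : Type) {K : Type} [Field k] [Finite k] [Field K] [Algebra k K] (ρ : ℕ)
    (a b : K) : Prop :=
  4 * a ^ 3 + 27 * b ^ 2 ≠ 0 ∧
  Set.ncard {P : (W313.Gr.curve a b).toAffine.Point | P + P = 0} = 2 ∧
  (∃ P : Fin ρ → (W313.Gr.curve a b).toAffine.Point, LinearIndependent ℤ P) ∧
  (∀ M : ℕ, S.VanishesTo k a b M → M ≤ ρ) ∧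
  ∀ r : ℕ, W313.Gr.HasOrder k a b r → W313.Gr.rank a b ≤ r → r = ρ ∧ W313.Gr.rank a b = ρ

open Classical in
theorem two_tors {K : Type} [Field K] (h2 : (2 : K) ≠ 0) (h3 : (3 : K) ≠ 0) {δ m : ℕ} {h : K}
    (hh : h ≠ 0) (hsq : ∀ c : K, c ^ 2 ≠ h ^ m)
    (hΔ : 4 * aT δ m h ^ 3 + 27 * bT δ m h ^ 2 ≠ 0) :
    Set.ncard {P : (crvT δ m h).toAffine.Point | P + P = 0} = 2 := by
  obtain ⟨hf, hle⟩ := card_two (δ := δ) h2 h3 hh hsq
  refine le_antisymm hle ?_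
  have hE : (crvT δ m h).toAffine.Equation (ee δ h) 0 := by
    rw [equation_iff]
    show (0 : K) ^ 2 + 0 * _ * 0 + 0 * 0 = (ee δ h) ^ 3 + 0 * _ ^ 2 + aT δ m h * _ + bT δ m h
    have := root_T h3 δ m h
    unfold ee
    linear_combination -this
  have hn := (equation_iff_nonsingular_of_Δ_ne_zero (delta_ne h2 hΔ)).1 hE
  have hneg : (crvT δ m h).toAffine.negY (ee δ h) 0 = 0 := by
    rw [(hasRoot h3 δ m h).negY, neg_zero]
  have h0 : (Point.some (ee δ h) 0 hn : (crvT δ m h).toAffine.Point) + Point.some (ee δ h) 0 hn = 0 :=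
    Point.add_of_Y_eq rfl (by rw [hneg])
  have hsub : ({0, Point.some (ee δ h) 0 hn} : Set (crvT δ m h).toAffine.Point) ⊆
      {P : (crvT δ m h).toAffine.Point | P + P = 0} := by
    rintro P (rfl | rfl)
    · exact add_zero _
    · exact h0
  have hcard : ({0, Point.some (ee δ h) 0 hn} : Set (crvT δ m h).toAffine.Point).ncard = 2 :=
    Set.ncard_pair (Point.some_ne_zero _).symm
  rw [← hcard]
  exact Set.ncard_le_ncard hsub hf

theorem equalities {k K : Type} [Field k] [Finite k] [Field K] [Algebra k K] {ρ : ℕ} {a b : K}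
    (hP : by classical exact ∃ P : Fin ρ → (W313.Gr.curve a b).toAffine.Point,
      LinearIndependent ℤ P)
    (hb : ∀ M : ℕ, S.VanishesTo k a b M → M ≤ ρ) (r : ℕ) (hr : W313.Gr.HasOrder k a b r)
    (hle : W313.Gr.rank a b ≤ r) : r = ρ ∧ W313.Gr.rank a b = ρ := by
  classical
  have h1 : r ≤ ρ := by
    apply hb
    obtain ⟨P, hP, hPr⟩ := hr
    obtain ⟨G, hG⟩ := TH943.KD.dvd_of_mult (Nat.card_pos (α := k)).ne' hPr
    exact ⟨G, by rw [hP, hG]⟩
  obtain ⟨P, hP⟩ := hP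
  have h3 : (ρ : Cardinal) ≤ W313.Gr.rank a b := by
    have := hP.cardinal_le_rank
    rwa [Cardinal.mk_fin] at this
  have h5 : ρ ≤ r := by exact_mod_cast h3.trans hle
  have h7 : r = ρ := le_antisymm h1 h5
  exact ⟨h7, le_antisymm (by rw [← h7]; exact hle) h3⟩

theorem main_zero {p ν : ℕ} (hp : p.Prime) (hp5 : 5 ≤ p) (hQ4 : p ^ ν % 4 = 1) (hν : 1 ≤ ν)
    {k K : Type} [Field k] [Finite k] [Field K] [Algebra k K] [FF.IsFF k K] {n : ℕ}
    (hcard : Nat.card k = p ^ (2 * ν * n)) (hc : constDeg k K = 1)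
    (hcl : Odd (S.classNumber k K)) {h : K} (hA : Adm k ((p ^ ν + 1) / 2) h) :
    RankOrder k ((p ^ ν - 1) / 2) (aT 0 ((p ^ ν + 1) / 2) h) (bT 0 ((p ^ ν + 1) / 2) h) := by
  have hpF : Fact p.Prime := ⟨hp⟩
  have hch : CharP k p := charP_of_card hp hcard
  obtain ⟨⟨i, hi⟩, ω, hω⟩ := exists_prim_and_i (p := p) (by omega) hcard
  have h6 : (6 : k) ≠ 0 := six_ne hp hp5
  obtain ⟨l, hl⟩ : ∃ l, p ^ ν = 4 * l + 1 := ⟨p ^ ν / 4, by omega⟩
  have hpf : p ≤ p ^ ν := Nat.le_self_pow (by omega) p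
  have hl0 : 0 < l := by omega
  have hm : (p ^ ν + 1) / 2 = 2 * l + 1 := by omega
  have hm' : (p ^ ν - 1) / 2 = 2 * l := by omega
  rw [hm] at hA
  rw [hm, hm']
  have hμ : IsPrimitiveRoot (ω ^ 2) (2 * l + 1) := hω.pow (by omega) (by omega)
  obtain ⟨h2, h3, hh, hhc, hsq, hΔ⟩ := facts h6 (odd_two_mul_add_one l) hA
  have hlow := lower_zero h6 hl hl0 hμ hA
  have hup : ∀ M : ℕ, S.VanishesTo k (aT 0 (2 * l + 1) h) (bT 0 (2 * l + 1) h) M → M ≤ 2 * l := by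
    intro M hM
    have := upper h6 hc hcl (by omega) hμ hA (by omega) M hM
    omega
  exact ⟨hΔ 0, two_tors h2 h3 hh hsq (hΔ 0), hlow, hup, equalities hlow hup⟩

theorem main_one {p ν : ℕ} (hp : p.Prime) (hp5 : 5 ≤ p) (hQ4 : p ^ ν % 4 = 1) (hν : 1 ≤ ν)
    {k K : Type} [Field k] [Finite k] [Field K] [Algebra k K] [FF.IsFF k K] {n : ℕ}
    (hcard : Nat.card k = p ^ (2 * ν * n)) (hc : constDeg k K = 1)
    (hcl : Odd (S.classNumber k K)) {h : K} (hA : Adm k ((p ^ ν + 1) / 2) h) :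
    RankOrder k ((p ^ ν + 1) / 2) (aT 1 ((p ^ ν + 1) / 2) h) (bT 1 ((p ^ ν + 1) / 2) h) := by
  have hpF : Fact p.Prime := ⟨hp⟩
  have hch : CharP k p := charP_of_card hp hcard
  obtain ⟨⟨i, hi⟩, ω, hω⟩ := exists_prim_and_i (p := p) (by omega) hcard
  have h6 : (6 : k) ≠ 0 := six_ne hp hp5
  obtain ⟨l, hl⟩ : ∃ l, p ^ ν = 4 * l + 1 := ⟨p ^ ν / 4, by omega⟩
  have hpf : p ≤ p ^ ν := Nat.le_self_pow (by omega) p
  have hl0 : 0 < l := by omega
  have hm : (p ^ ν + 1) / 2 = 2 * l + 1 := by omega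
  rw [hm] at hA
  rw [hm]
  have hμ : IsPrimitiveRoot (ω ^ 2) (2 * l + 1) := hω.pow (by omega) (by omega)
  obtain ⟨h2, h3, hh, hhc, hsq, hΔ⟩ := facts h6 (odd_two_mul_add_one l) hA
  have hlow := lower_one h6 hl hl0 hi hμ hA
  have hup : ∀ M : ℕ, S.VanishesTo k (aT 1 (2 * l + 1) h) (bT 1 (2 * l + 1) h) M →
      M ≤ 2 * l + 1 := by
    intro M hM
    have := upper h6 hc hcl (by omega) hμ hA (by omega) M hM
    omega
  exact ⟨hΔ 1, two_tors h2 h3 hh hsq (hΔ 1), hlow, hup, equalities hlow hup⟩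

section rat

open Pool.Agent.W309.RF Pool.Agent.H525R3.FFp FF

variable {k : Type} [Field k] [Finite k]

theorem adm_of {Q m : ℕ} (hQm : Q + 1 = 2 * m) {h : k[X]} (hh : Irreducible h)
    (hodd : Odd h.natDegree) (hz : ∀ z : k, z ^ (Q + 1) = 1 → Irreducible (h - C z)) :
    Adm k m (algebraMap k[X] (RatFunc k) h) := by
  have hT := admissible_of hh hodd hz
  refine ⟨hT.zero, fun z hzm => hT.shift z (by rw [hQm, mul_comm, pow_mul, hzm, one_pow]), ?_⟩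
  obtain ⟨v, hv, hvo, hvd, hvu⟩ := hT.pole
  have hinf : ∀ w : Place k (RatFunc k), w.ord (algebraMap k[X] (RatFunc k) h) < 0 → w = infty k := by
    intro w hw
    by_contra hne
    have h1 : 0 ≤ w.ord (A h) := (w.reg_iff (A_ne hh.ne_zero)).1 (fin_reg (fin_of_ne hne) h)
    have h3 : w.ord (A h) < 0 := hw
    omega
  exact ⟨v, hv, hvd, fun w hw _ => (hinf w hw).trans (hinf v hv).symm⟩

end rat

theorem exist {p ν : ℕ} (hp : p.Prime) (hp5 : 5 ≤ p) (hν : 1 ≤ ν) :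
    ∃ (k : Type) (_ : Field k) (_ : Finite k) (n : ℕ),
      Nat.card k = p ^ (2 * ν * n) ∧ IsCurveField k (RatFunc k) ∧
      Odd (S.classNumber k (RatFunc k)) ∧ ∀ N : ℕ, ∃ h : k[X], N ≤ h.natDegree ∧
        Adm k ((p ^ ν + 1) / 2) (algebraMap k[X] (RatFunc k) h) := by
  haveI : Fact p.Prime := ⟨hp⟩
  obtain ⟨k, i1, i2, -, n, hcard, hh⟩ := exists_family p ν hν
  have hodd : Odd (p ^ ν) := (hp.odd_of_ne_two (by omega)).pow
  obtain ⟨j, hj⟩ := hodd
  refine ⟨k, i1, i2, n, hcard, isCurveField_rat, (sb k).2.2, fun N => ?_⟩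
  obtain ⟨h, hN, hodd, hirr, hz⟩ := hh N
  exact ⟨h, hN, adm_of (by omega) hirr hodd hz⟩

end Pool.Agent.TH958.T5
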