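import Mathlib

/-!
Identities behind the points on `y ^ 2 = x ((x - 1) ^ 2 - w ^ m)` and on its twist by `w`,
`2 m = p ^ ν + 1`, `m = 2 l + 1`.
-/

set_option autoImplicit false
set_option linter.all false

namespace Pool.Agent.TH958.T5

section ring

variable {R : Type*} [CommRing R]

/-- The coefficients of `(1 + s) ^ j = a + b s`, where `s ^ 2 = w`. -/
def cs (w : R) : ℕ → R × R
  | 0 => (1, 0)
  | (j + 1) => ((cs w j).1 + w * (cs w j).2, (cs w j).1 + (cs w j).2)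

theorem cs_norm (w : R) (j : ℕ) : (cs w j).1 ^ 2 - w * (cs w j).2 ^ 2 = (1 - w) ^ j := by
  induction j with
  | zero => simp [cs]
  | succ j ih =>
    rw [pow_succ (1 - w), ← ih, cs]
    ring

theorem cs_pow {w s : R} (hs : s ^ 2 = w) (j : ℕ) :
    (1 + s) ^ j = (cs w j).1 + (cs w j).2 * s ∧ (1 - s) ^ j = (cs w j).1 - (cs w j).2 * s := by
  induction j with
  | zero => simp [cs]
  | succ j ih =>
    rw [pow_succ, pow_succ, ih.1, ih.2, cs]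
    subst hs
    constructor <;> ring

theorem cs_map {S : Type*} [CommRing S] (φ : R →+* S) (w : R) (j : ℕ) :
    φ (cs w j).1 = (cs (φ w) j).1 ∧ φ (cs w j).2 = (cs (φ w) j).2 := by
  induction j with
  | zero => simp [cs]
  | succ j ih =>
    simp only [cs, map_add, map_mul, ih.1, ih.2, and_self]

/-- the rational part of the fourth power -/
def al (a b w : R) : R := a ^ 4 + 6 * a ^ 2 * b ^ 2 * w + b ^ 4 * w ^ 2

/-- the other part of the fourth power -/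
def be (a b w : R) : R := 4 * a * b * (a ^ 2 + b ^ 2 * w)

end ring

/-- the two relations, with a root of `w` -/
theorem rel_root {L : Type*} [Field L] {p : ℕ} [Fact p.Prime] [CharP L p] (h2 : (2 : L) ≠ 0)
    {ν l : ℕ} (hQ : p ^ ν = 4 * l + 1) {w s : L} (hs : s ^ 2 = w) (hw : w ≠ 0) :
    al (cs w l).1 (cs w l).2 w + w * be (cs w l).1 (cs w l).2 w = 1 ∧
      al (cs w l).1 (cs w l).2 w + be (cs w l).1 (cs w l).2 w = w ^ (2 * l) := by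
  obtain ⟨e1, e2⟩ := cs_pow hs l
  set a := (cs w l).1
  set b := (cs w l).2
  have hs0 : s ≠ 0 := by
    rintro rfl
    exact hw (by rw [← hs]; ring)
  have f1 : (1 + s) ^ (4 * l + 1) = 1 + s ^ (4 * l + 1) := by
    rw [← hQ, add_pow_char_pow, one_pow]
  have f2 : (1 - s) ^ (4 * l + 1) = 1 - s ^ (4 * l + 1) := by
    rw [← hQ, sub_pow_char_pow, one_pow]
  have hsw : s ^ (4 * l + 1) = w ^ (2 * l) * s := by
    rw [← hs, ← pow_mul, pow_succ]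
    congr 2
    ring
  have g1 : (1 + s) ^ (4 * l + 1) = (1 + s) * (a + b * s) ^ 4 := by
    rw [← e1, ← pow_mul, pow_succ, mul_comm l 4]; ring
  have g2 : (1 - s) ^ (4 * l + 1) = (1 - s) * (a - b * s) ^ 4 := by
    rw [← e2, ← pow_mul, pow_succ, mul_comm l 4]; ring
  have k1 : (1 + s) * (a + b * s) ^ 4 = 1 + w ^ (2 * l) * s := by rw [← g1, f1, hsw]
  have k2 : (1 - s) * (a - b * s) ^ 4 = 1 - w ^ (2 * l) * s := by rw [← g2, f2, hsw]
  have k1' : (al a b w + w * be a b w) + (al a b w + be a b w) * s = 1 + w ^ (2 * l) * s := by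
    rw [← k1, ← hs]
    unfold al be
    ring
  have k2' : (al a b w + w * be a b w) - (al a b w + be a b w) * s = 1 - w ^ (2 * l) * s := by
    rw [← k2, ← hs]
    unfold al be
    ring
  constructor
  · apply mul_left_cancel₀ h2
    linear_combination k1' + k2'
  · apply mul_left_cancel₀ (mul_ne_zero h2 hs0)
    linear_combination k1' - k2'

/-- the two relations -/
theorem rel {K : Type*} [Field K] {p : ℕ} [Fact p.Prime] [CharP K p] (h2 : (2 : K) ≠ 0)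
    {ν l : ℕ} (hQ : p ^ ν = 4 * l + 1) {w : K} (hw : w ≠ 0) :
    al (cs w l).1 (cs w l).2 w + w * be (cs w l).1 (cs w l).2 w = 1 ∧
      al (cs w l).1 (cs w l).2 w + be (cs w l).1 (cs w l).2 w = w ^ (2 * l) := by
  let φ : K →+* AlgebraicClosure K := algebraMap K (AlgebraicClosure K)
  have hφ : Function.Injective φ := φ.injective
  haveI : CharP (AlgebraicClosure K) p := charP_of_injective_ringHom hφ p
  obtain ⟨s, hs⟩ := IsAlgClosed.exists_pow_nat_eq (φ w) (n := 2) (by norm_num)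
  have h2' : (2 : AlgebraicClosure K) ≠ 0 := by
    have h3 : φ 2 ≠ 0 := (map_ne_zero φ).2 h2
    rwa [map_ofNat] at h3
  obtain ⟨r1, r2⟩ := rel_root h2' hQ hs ((map_ne_zero φ).2 hw)
  obtain ⟨m1, m2⟩ := cs_map φ w l
  rw [← m1, ← m2] at r1 r2
  constructor
  · apply hφ
    unfold al be at r1 ⊢
    simp only [map_add, map_mul, map_pow, map_ofNat, map_one]
    exact r1
  · apply hφ
    unfold al be at r2 ⊢
    simp only [map_add, map_mul, map_pow, map_ofNat]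
    exact r2

section field

variable {F : Type*} [Field F]

/-- the cubic -/
def CC (S p : F) : F := S ^ 3 - (1 + p ^ 2) * S ^ 2 - 2 * p * (1 + p ^ 2) * S +
  4 * p ^ 2 * (1 + p ^ 2)

/-- the main identity -/
theorem key {S p : F} (hS : S ≠ 0) (hp : 1 - p ≠ 0) (h4 : S ^ 2 - 4 * p ^ 2 ≠ 0) :
    ((S ^ 2 - (1 + p ^ 2) ^ 2) * (S - 2 * p) / (S ^ 2 * (1 - p) ^ 2) - 1) ^ 2 -
      (2 * (1 + p ^ 2) - S ^ 2) * (S ^ 2 - 2 * p ^ 2 * (1 + p ^ 2)) /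
        (S ^ 2 * (S ^ 2 - 4 * p ^ 2)) =
      (S ^ 2 - (1 + p ^ 2) ^ 2) * CC S p ^ 2 / (S ^ 4 * (1 - p) ^ 4 * (S ^ 2 - 4 * p ^ 2)) := by
  unfold CC
  obtain ⟨D, hD⟩ : ∃ D, D = S ^ 2 - 4 * p ^ 2 := ⟨_, rfl⟩
  rw [← hD] at h4 ⊢
  field_simp
  rw [hD]
  ring

/-- consequences of the relations -/
theorem cons {a b w W : F} (hα : al a b w + w * be a b w = 1) (hW : al a b w + be a b w = W) :
    (2 * (a ^ 2 + b ^ 2 * w)) ^ 2 - (1 + (a ^ 2 - w * b ^ 2) ^ 2) ^ 2 =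
      w * (1 - w) * (2 * a * b * (2 * (a ^ 2 + b ^ 2 * w))) ^ 2 ∧
    w * W * ((2 * (a ^ 2 + b ^ 2 * w)) ^ 2 *
      ((2 * (a ^ 2 + b ^ 2 * w)) ^ 2 - 4 * (a ^ 2 - w * b ^ 2) ^ 2)) =
      (2 * (1 + (a ^ 2 - w * b ^ 2) ^ 2) - (2 * (a ^ 2 + b ^ 2 * w)) ^ 2) *
        ((2 * (a ^ 2 + b ^ 2 * w)) ^ 2 -
          2 * (a ^ 2 - w * b ^ 2) ^ 2 * (1 + (a ^ 2 - w * b ^ 2) ^ 2)) := by
  have hβ : be a b w = 2 * a * b * (2 * (a ^ 2 + b ^ 2 * w)) := by unfold be; ring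
  have hS : (2 * (a ^ 2 + b ^ 2 * w)) ^ 2 = 2 * al a b w + 2 * (a ^ 2 - w * b ^ 2) ^ 2 := by
    unfold al; ring
  have hn : (a ^ 2 - w * b ^ 2) ^ 4 = al a b w ^ 2 - w * be a b w ^ 2 := by
    unfold al be; ring
  have h16 : (2 * (a ^ 2 + b ^ 2 * w)) ^ 2 *
      ((2 * (a ^ 2 + b ^ 2 * w)) ^ 2 - 4 * (a ^ 2 - w * b ^ 2) ^ 2) = 4 * w * be a b w ^ 2 := by
    unfold be; ring
  constructor
  · rw [← hβ, hS]
    linear_combination (-1 : F) * hn + (w * be a b w + 1 - al a b w) * hα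
  · rw [h16, hS]
    subst hW
    linear_combination (4 * (1 - al a b w)) * hn +
      (4 * al a b w * (w * be a b w + 1 - al a b w) + 4 * w * be a b w ^ 2) * hα

/-- the first point -/
theorem pt_sum {a b w W : F} (h2 : (2 : F) ≠ 0) (hα : al a b w + w * be a b w = 1)
    (hW : al a b w + be a b w = W) (ha : a ≠ 0) (hb : b ≠ 0) (hw : w ≠ 0)
    (hS : a ^ 2 + b ^ 2 * w ≠ 0) (hp : 1 - (a ^ 2 - w * b ^ 2) ≠ 0) :
    ∃ Y : F, Y ^ 2 = ((1 - w) * (4 * a * b ^ 2 * w / (1 - (a ^ 2 - w * b ^ 2))) ^ 2) *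
      (((1 - w) * (4 * a * b ^ 2 * w / (1 - (a ^ 2 - w * b ^ 2))) ^ 2 - 1) ^ 2 - w * W) := by
  obtain ⟨c1, c2⟩ := cons hα hW
  set S := 2 * (a ^ 2 + b ^ 2 * w) with hSd
  set p := a ^ 2 - w * b ^ 2 with hpd
  have hS0 : S ≠ 0 := mul_ne_zero h2 hS
  have e4 : S ^ 2 - 4 * p ^ 2 = 16 * a ^ 2 * b ^ 2 * w := by rw [hSd, hpd]; ring
  have h16 : (16 : F) ≠ 0 := by
    have : (16 : F) = 2 ^ 4 := by norm_num
    rw [this]
    exact pow_ne_zero 4 h2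
  have h4 : S ^ 2 - 4 * p ^ 2 ≠ 0 := by
    rw [e4]
    exact mul_ne_zero (mul_ne_zero (mul_ne_zero h16 (pow_ne_zero 2 ha)) (pow_ne_zero 2 hb)) hw
  have e5 : S - 2 * p = 4 * b ^ 2 * w := by rw [hSd, hpd]; ring
  have hX : (1 - w) * (4 * a * b ^ 2 * w / (1 - p)) ^ 2 =
      (S ^ 2 - (1 + p ^ 2) ^ 2) * (S - 2 * p) / (S ^ 2 * (1 - p) ^ 2) := by
    rw [c1, e5]
    field_simp
    ring
  have hs : w * W = (2 * (1 + p ^ 2) - S ^ 2) * (S ^ 2 - 2 * p ^ 2 * (1 + p ^ 2)) /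
        (S ^ 2 * (S ^ 2 - 4 * p ^ 2)) := by
    rw [eq_div_iff (mul_ne_zero (pow_ne_zero 2 hS0) h4)]
    exact c2
  have hk := key hS0 hp h4
  rw [← hX, ← hs] at hk
  refine ⟨(1 - w) * (4 * a * b ^ 2 * w / (1 - p)) * (CC S p / (2 * S * (1 - p) ^ 2)), ?_⟩
  rw [hk, c1, e4]
  field_simp
  ring

/-- the second point -/
theorem pt_dif {a b w W : F} (h2 : (2 : F) ≠ 0) (hα : al a b w + w * be a b w = 1)
    (hW : al a b w + be a b w = W) (ha : a ≠ 0) (hb : b ≠ 0) (hw : w ≠ 0)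
    (hS : a ^ 2 + b ^ 2 * w ≠ 0) (hp : 1 + (a ^ 2 - w * b ^ 2) ≠ 0) :
    ∃ Y : F, w * Y ^ 2 = (w * (1 - w) * (4 * a ^ 2 * b / (1 + (a ^ 2 - w * b ^ 2))) ^ 2) *
      ((w * (1 - w) * (4 * a ^ 2 * b / (1 + (a ^ 2 - w * b ^ 2))) ^ 2 - 1) ^ 2 - w * W) := by
  obtain ⟨c1, c2⟩ := cons hα hW
  set S := 2 * (a ^ 2 + b ^ 2 * w) with hSd
  set p := a ^ 2 - w * b ^ 2 with hpd
  have hS0 : S ≠ 0 := mul_ne_zero h2 hS
  have e4 : S ^ 2 - 4 * p ^ 2 = 16 * a ^ 2 * b ^ 2 * w := by rw [hSd, hpd]; ring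
  have h16 : (16 : F) ≠ 0 := by
    have : (16 : F) = 2 ^ 4 := by norm_num
    rw [this]
    exact pow_ne_zero 4 h2
  have h4 : S ^ 2 - 4 * p ^ 2 ≠ 0 := by
    rw [e4]
    exact mul_ne_zero (mul_ne_zero (mul_ne_zero h16 (pow_ne_zero 2 ha)) (pow_ne_zero 2 hb)) hw
  have h4' : S ^ 2 - 4 * (-p) ^ 2 ≠ 0 := by
    rwa [neg_sq]
  have hp' : 1 - -p ≠ 0 := by rwa [sub_neg_eq_add]
  have e5 : S - 2 * (-p) = 4 * a ^ 2 := by rw [hSd, hpd]; ring
  have hX : w * (1 - w) * (4 * a ^ 2 * b / (1 + p)) ^ 2 =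
      (S ^ 2 - (1 + (-p) ^ 2) ^ 2) * (S - 2 * (-p)) / (S ^ 2 * (1 - -p) ^ 2) := by
    rw [neg_sq, c1, e5, sub_neg_eq_add]
    field_simp
    ring
  have hs : w * W = (2 * (1 + (-p) ^ 2) - S ^ 2) * (S ^ 2 - 2 * (-p) ^ 2 * (1 + (-p) ^ 2)) /
        (S ^ 2 * (S ^ 2 - 4 * (-p) ^ 2)) := by
    rw [eq_div_iff (mul_ne_zero (pow_ne_zero 2 hS0) h4')]
    simp only [neg_sq]
    exact c2
  have hk := key hS0 hp' h4'
  rw [← hX, ← hs] at hk
  refine ⟨(1 - w) * (4 * a ^ 2 * b / (1 + p)) * (CC S (-p) / (2 * S * (1 + p) ^ 2)), ?_⟩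
  rw [hk, neg_sq, c1, e4, sub_neg_eq_add]
  field_simp
  ring

end field

end Pool.Agent.TH958.T5
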