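import Pool.Agent.TH943.TT.Bd
import Pool.Agent.TH958.T4.Ub

/-!
The order of vanishing for `y ^ 2 = x ((x - 1) ^ 2 - h ^ m)` and its twist by `h` over a function
field.
-/

set_option autoImplicit false
set_option linter.all false
set_option maxHeartbeats 4000000

open Polynomial WeierstrassCurve WeierstrassCurve.Affine

namespace Pool.Agent.TH958.T5

open Pool.Agent.W343.BSD Pool.Agent.W309.RK Pool.Agent.W313.Gr Pool.Agent.TH958.T4

section defs

/-- The conditions on the function `h`: `h` and the functions `h - ζ` with `ζ ^ m = 1` have exactly one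
zero each, of odd order and at a place of odd degree; the poles of `h`, with the exception of one
pole, which is a place of odd degree, have orders divisible by four. -/
structure Adm (k : Type) {K : Type} [Field k] [Field K] [Algebra k K] (m : ℕ) (h : K) : Prop where
  zero : OneZero k h
  shift : ∀ ζ : k, ζ ^ m = 1 → OneZero k (h - algebraMap k K ζ)
  pole : ∃ v : FF.Place k K, v.ord h < 0 ∧ Odd (S.deg v) ∧
    ∀ w : FF.Place k K, w.ord h < 0 → ¬ (4 : ℤ) ∣ w.ord h → w = v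

variable {K : Type} [Field K]

/-- The coefficient `a` of the short form of `y ^ 2 = x ((x - 1) ^ 2 - s)`. -/
def aa (s : K) : K := -(1 / 3) - s

/-- The coefficient `b` of the short form of `y ^ 2 = x ((x - 1) ^ 2 - s)`. -/
def bb (s : K) : K := 2 / 27 - 2 * s / 3

/-- The coefficient `a` of the twist by `h ^ δ`. -/
def aT (δ m : ℕ) (h : K) : K := (h ^ δ) ^ 2 * aa (h ^ m)

/-- The coefficient `b` of the twist by `h ^ δ`. -/
def bT (δ m : ℕ) (h : K) : K := (h ^ δ) ^ 3 * bb (h ^ m)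

theorem disc_aa (h3 : (3 : K) ≠ 0) (s : K) : 4 * aa s ^ 3 + 27 * bb s ^ 2 =
    -(4 * (s * (1 - s) ^ 2)) := by
  unfold aa bb
  have h27 : (27 : K) ≠ 0 := by
    have : (27 : K) = 3 ^ 3 := by norm_num
    rw [this]
    exact pow_ne_zero 3 h3
  field_simp
  ring

theorem disc_T (h3 : (3 : K) ≠ 0) (δ m : ℕ) (h : K) :
    4 * aT δ m h ^ 3 + 27 * bT δ m h ^ 2 =
      -(4 * ((h ^ δ) ^ 6 * (h ^ m * (1 - h ^ m) ^ 2))) := by
  unfold aT bT
  have := disc_aa h3 (h ^ m)
  linear_combination ((h ^ δ) ^ 6) * this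

theorem root_T (h3 : (3 : K) ≠ 0) (δ m : ℕ) (h : K) :
    (-(2 / 3) * h ^ δ) ^ 3 + aT δ m h * (-(2 / 3) * h ^ δ) + bT δ m h = 0 := by
  unfold aT bT aa bb
  have h27 : (27 : K) ≠ 0 := by
    have : (27 : K) = 3 ^ 3 := by norm_num
    rw [this]
    exact pow_ne_zero 3 h3
  field_simp
  ring

end defs

section loc

variable {k K : Type} [Field k] [Field K] [Algebra k K] (v : FF.Place k K)

theorem ord_const_add {c : k} (hc : c ≠ 0) {x : K} (hx : 0 < v.ord x) :
    algebraMap k K c + x ≠ 0 ∧ v.ord (algebraMap k K c + x) = 0 := by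
  have hx0 : x ≠ 0 := ne_of_pos v hx.ne'
  have hc0 : algebraMap k K c ≠ 0 := by simpa using hc
  have h1 := v.ord_const hc
  have h3 := v.ord_add_eq (f := algebraMap k K c) (g := x) hc0 hx0 (by rw [h1]; exact hx)
  rw [h1] at h3
  exact h3

theorem const3 (h3 : (3 : k) ≠ 0) : algebraMap k K (1 / 3) = 1 / 3 := by
  rw [map_div₀, map_one, map_ofNat]

/-- `aa s` is a unit if `s` vanishes -/
theorem aa_zero (h3 : (3 : k) ≠ 0) {s : K} (hs : 0 < v.ord s) : aa s ≠ 0 ∧ v.ord (aa s) = 0 := by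
  have h1 : (1 / 3 : k) ≠ 0 := one_div_ne_zero h3
  have h2 := ord_const_add v h1 hs
  rw [const3 h3] at h2
  have e : aa s = -(1 / 3 + s) := by unfold aa; ring
  rw [e, v.ord_neg]
  exact ⟨neg_ne_zero.2 h2.1, h2.2⟩

/-- `aa s` is a unit if `1 - s` vanishes -/
theorem aa_one (h2 : (2 : k) ≠ 0) (h3 : (3 : k) ≠ 0) {s : K} (hs : 0 < v.ord (1 - s)) :
    aa s ≠ 0 ∧ v.ord (aa s) = 0 := by
  have h4 : (-(4 / 3) : k) ≠ 0 := by
    apply neg_ne_zero.2
    apply div_ne_zero _ h3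
    have : (4 : k) = 2 ^ 2 := by norm_num
    rw [this]
    exact pow_ne_zero 2 h2
  have h5 := ord_const_add v h4 hs
  have h3K : (3 : K) ≠ 0 := by
    have : algebraMap k K 3 ≠ 0 := by simpa using h3
    rwa [map_ofNat] at this
  have e : aa s = algebraMap k K (-(4 / 3)) + (1 - s) := by
    rw [map_neg, map_div₀, map_ofNat, map_ofNat]
    unfold aa
    field_simp
    ring
  rw [e]
  exact h5

theorem reg_third (h3 : (3 : k) ≠ 0) : v.Reg (1 / 3 : K) := by
  have := v.reg_const (1 / 3 : k)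
  rwa [const3 h3] at this

theorem reg_aa (h3 : (3 : k) ≠ 0) {s : K} (hs : v.Reg s) : v.Reg (aa s) := by
  unfold aa
  rw [sub_eq_add_neg]
  exact v.reg_add (v.reg_neg (reg_third v h3)) (v.reg_neg hs)

theorem reg_two : v.Reg (2 : K) := by
  have := v.reg_const (2 : k)
  rwa [map_ofNat] at this

theorem bb_eq (h3 : (3 : K) ≠ 0) (s : K) : bb s = 2 * (1 / 3) * ((1 / 3) * (1 / 3) - s) := by
  unfold bb
  have h27 : (27 : K) ≠ 0 := by
    have : (27 : K) = 3 ^ 3 := by norm_num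
    rw [this]
    exact pow_ne_zero 3 h3
  field_simp
  ring

theorem reg_bb (h3 : (3 : k) ≠ 0) {s : K} (hs : v.Reg s) : v.Reg (bb s) := by
  have h3K : (3 : K) ≠ 0 := by
    have : algebraMap k K 3 ≠ 0 := by simpa using h3
    rwa [map_ofNat] at this
  rw [bb_eq h3K, sub_eq_add_neg]
  have t := reg_third v h3 (K := K)
  exact v.reg_mul (v.reg_mul (reg_two v) t) (v.reg_add (v.reg_mul t t) (v.reg_neg hs))

/-- the order of a product with a regular factor of `s`: poles -/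
theorem reg_scaled {s c : K} (hc : v.Reg c) (hcs : v.Reg (c * s)) {f : K → K}
    {u w : K} (hu : v.Reg u) (hw : v.Reg w) (hf : f s = u + w * s) : v.Reg (c * f s) := by
  rw [hf]
  have e : c * (u + w * s) = c * u + w * (c * s) := by ring
  rw [e]
  exact v.reg_add (v.reg_mul hc hu) (v.reg_mul hw hcs)

end loc

section upper

variable {k K : Type} [Field k] [Finite k] [Field K] [Algebra k K] [FF.IsFF k K]

/-- the exponent at the poles of order divisible by four -/
theorem exp_pole (h6 : (6 : k) ≠ 0) {δ m : ℕ} {h : K} (hh : h ≠ 0)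
    (hΔ : 4 * aT δ m h ^ 3 + 27 * bT δ m h ^ 2 ≠ 0) (v : FF.Place k K) (hv : v.ord h < 0)
    (h4 : (4 : ℤ) ∣ v.ord h) (hm : 0 < m) : condExp v (aT δ m h) (bT δ m h) = 0 := by
  have h2 : (2 : k) ≠ 0 := fun e => h6 (by linear_combination 3 * e)
  have h3 : (3 : k) ≠ 0 := fun e => h6 (by linear_combination 2 * e)
  have h3K : (3 : K) ≠ 0 := by
    have : algebraMap k K 3 ≠ 0 := by simpa using h3
    rwa [map_ofNat] at this
  obtain ⟨j', hj'⟩ := h4
  obtain ⟨j, hj⟩ : ∃ j : ℕ, v.ord h = -(4 * (j : ℤ)) := by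
    refine ⟨(-j').toNat, ?_⟩
    have : 0 ≤ -j' := by omega
    rw [Int.toNat_of_nonneg this, hj']
    ring
  have hj0 : 0 < j := by
    rcases Nat.eq_zero_or_pos j with h0 | h0
    · rw [h0] at hj
      simp at hj
      omega
    · exact h0
  obtain ⟨π, hπ0, hπ⟩ := v.surj
  obtain ⟨c0, hc00, oc⟩ : ∃ c0 : K, c0 ≠ 0 ∧ v.ord c0 = (2 * δ + m) * j :=
    ⟨π ^ ((2 * δ + m) * j), pow_ne_zero _ hπ0, by rw [v.ord_pow, hπ]; push_cast; ring⟩
  have hs0 : h ^ m ≠ 0 := pow_ne_zero _ hh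
  have hd0 : h ^ δ ≠ 0 := pow_ne_zero _ hh
  have os : v.ord (h ^ m) = -(4 * m * j) := by rw [v.ord_pow, hj]; ring
  have od : v.ord (h ^ δ) = -(4 * δ * j) := by rw [v.ord_pow, hj]; ring
  have hneg : v.ord (h ^ m) < 0 := by
    rw [os]
    have : (0 : ℤ) < 4 * m * j := by positivity
    omega
  have o1 := ord_one_sub v hneg
  have hmj : (0 : ℤ) ≤ m * j := by positivity
  have hδj : (0 : ℤ) ≤ δ * j := by positivity
  apply TH943.TT.condExp_good hΔ hc00
  · -- a
    have e : c0 ^ 4 * aT δ m h = (c0 ^ 4 * (h ^ δ) ^ 2) * aa (h ^ m) := by unfold aT; ring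
    rw [e]
    refine reg_scaled v (f := aa) (u := -(1 / 3)) (w := -1) ?_ ?_ (v.reg_neg (reg_third v h3))
      (v.reg_neg v.reg_one) (by unfold aa; ring)
    · right
      rw [v.ord_mul (pow_ne_zero _ hc00) (pow_ne_zero _ hd0), v.ord_pow c0 4,
        v.ord_pow (h ^ δ) 2, oc, od]
      push_cast
      nlinarith
    · right
      rw [v.ord_mul (mul_ne_zero (pow_ne_zero _ hc00) (pow_ne_zero _ hd0)) hs0,
        v.ord_mul (pow_ne_zero _ hc00) (pow_ne_zero _ hd0), v.ord_pow c0 4,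
        v.ord_pow (h ^ δ) 2, oc, od, os]
      push_cast
      nlinarith
  · have e : c0 ^ 6 * bT δ m h = (c0 ^ 6 * (h ^ δ) ^ 3) * bb (h ^ m) := by unfold bT; ring
    rw [e]
    refine reg_scaled v (f := bb) (u := 2 * (1 / 3) * ((1 / 3) * (1 / 3)))
      (w := -(2 * (1 / 3))) ?_ ?_ ?_ ?_ (by rw [bb_eq h3K]; ring)
    · right
      rw [v.ord_mul (pow_ne_zero _ hc00) (pow_ne_zero _ hd0), v.ord_pow c0 6,
        v.ord_pow (h ^ δ) 3, oc, od]
      push_cast
      nlinarith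
    · right
      rw [v.ord_mul (mul_ne_zero (pow_ne_zero _ hc00) (pow_ne_zero _ hd0)) hs0,
        v.ord_mul (pow_ne_zero _ hc00) (pow_ne_zero _ hd0), v.ord_pow c0 6,
        v.ord_pow (h ^ δ) 3, oc, od, os]
      push_cast
      nlinarith
    · have t := reg_third v h3 (K := K)
      exact v.reg_mul (v.reg_mul (reg_two v) t) (v.reg_mul t t)
    · have t := reg_third v h3 (K := K)
      exact v.reg_neg (v.reg_mul (reg_two v) t)
  · rw [disc_T h3K]
    have e : c0 ^ 12 * -(4 * ((h ^ δ) ^ 6 * (h ^ m * (1 - h ^ m) ^ 2))) =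
        algebraMap k K (-4) * (c0 ^ 12 * ((h ^ δ) ^ 6 * (h ^ m * (1 - h ^ m) ^ 2))) := by
      rw [map_neg, map_ofNat]; ring
    have h4k : (-4 : k) ≠ 0 := by
      apply neg_ne_zero.2
      have : (4 : k) = 2 ^ 2 := by norm_num
      rw [this]
      exact pow_ne_zero 2 h2
    have h4K : algebraMap k K (-4) ≠ 0 := (map_ne_zero (algebraMap k K)).2 h4k
    have n1 : h ^ m * (1 - h ^ m) ^ 2 ≠ 0 := mul_ne_zero hs0 (pow_ne_zero _ o1.1)
    have n2 : (h ^ δ) ^ 6 * (h ^ m * (1 - h ^ m) ^ 2) ≠ 0 := mul_ne_zero (pow_ne_zero _ hd0) n1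
    rw [e, v.ord_mul h4K (mul_ne_zero (pow_ne_zero _ hc00) n2), v.ord_const h4k,
      v.ord_mul (pow_ne_zero _ hc00) n2, v.ord_mul (pow_ne_zero _ hd0) n1,
      v.ord_mul hs0 (pow_ne_zero _ o1.1), v.ord_pow c0 12, v.ord_pow (h ^ δ) 6,
      v.ord_pow (1 - h ^ m) 2, o1.2, oc, od, os]
    push_cast
    ring

/-- the exponent where `h` is a unit -/
theorem exp_unit (h6 : (6 : k) ≠ 0) {δ m : ℕ} {h : K} (hh : h ≠ 0)
    (hΔ : 4 * aT δ m h ^ 3 + 27 * bT δ m h ^ 2 ≠ 0) (v : FF.Place k K) (hv : v.ord h = 0) :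
    condExp v (aT δ m h) (bT δ m h) ≤ 1 ∧
      (v.ord (1 - h ^ m) = 0 → condExp v (aT δ m h) (bT δ m h) = 0) := by
  have h2 : (2 : k) ≠ 0 := fun e => h6 (by linear_combination 3 * e)
  have h3 : (3 : k) ≠ 0 := fun e => h6 (by linear_combination 2 * e)
  have h3K : (3 : K) ≠ 0 := by
    have : algebraMap k K 3 ≠ 0 := by simpa using h3
    rwa [map_ofNat] at this
  have hs0 : h ^ m ≠ 0 := pow_ne_zero _ hh
  have hd0 : h ^ δ ≠ 0 := pow_ne_zero _ hh
  have os : v.ord (h ^ m) = 0 := by rw [v.ord_pow, hv, mul_zero]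
  have od : v.ord (h ^ δ) = 0 := by rw [v.ord_pow, hv, mul_zero]
  have rs : v.Reg (h ^ m) := Or.inr os.ge
  have rd : v.Reg (h ^ δ) := Or.inr od.ge
  have rd2 : v.Reg ((h ^ δ) ^ 2) := by rw [pow_two]; exact v.reg_mul rd rd
  have rd3 : v.Reg ((h ^ δ) ^ 3) := by rw [pow_succ]; exact v.reg_mul rd2 rd
  have hA : v.Reg ((1 : K) ^ 4 * aT δ m h) := by
    rw [one_pow, one_mul]
    exact v.reg_mul rd2 (reg_aa v h3 rs)
  have hB : v.Reg ((1 : K) ^ 6 * bT δ m h) := by
    rw [one_pow, one_mul]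
    exact v.reg_mul rd3 (reg_bb v h3 rs)
  have hone : 1 - h ^ m ≠ 0 := by
    intro e
    apply hΔ
    rw [disc_T h3K, e]
    ring
  have hgood : v.ord (1 - h ^ m) = 0 → condExp v (aT δ m h) (bT δ m h) = 0 := by
    intro h1
    apply TH943.TT.condExp_good hΔ one_ne_zero hA hB
    rw [one_pow, one_mul, disc_T h3K]
    have e : -(4 * ((h ^ δ) ^ 6 * (h ^ m * (1 - h ^ m) ^ 2))) =
        algebraMap k K (-4) * ((h ^ δ) ^ 6 * (h ^ m * (1 - h ^ m) ^ 2)) := by
      rw [map_neg, map_ofNat]; ring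
    have h4k : (-4 : k) ≠ 0 := by
      apply neg_ne_zero.2
      have : (4 : k) = 2 ^ 2 := by norm_num
      rw [this]
      exact pow_ne_zero 2 h2
    have h4K : algebraMap k K (-4) ≠ 0 := (map_ne_zero (algebraMap k K)).2 h4k
    have n1 : h ^ m * (1 - h ^ m) ^ 2 ≠ 0 := mul_ne_zero hs0 (pow_ne_zero _ hone)
    have n2 : (h ^ δ) ^ 6 * (h ^ m * (1 - h ^ m) ^ 2) ≠ 0 := mul_ne_zero (pow_ne_zero _ hd0) n1
    rw [e, v.ord_mul h4K n2, v.ord_const h4k, v.ord_mul (pow_ne_zero _ hd0) n1,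
      v.ord_mul hs0 (pow_ne_zero _ hone), v.ord_pow (h ^ δ) 6, v.ord_pow (1 - h ^ m) 2, od, os, h1]
    norm_num
  refine ⟨?_, hgood⟩
  by_cases h1 : v.ord (1 - h ^ m) = 0
  · rw [hgood h1]; norm_num
  · have hnn : 0 ≤ v.ord (1 - h ^ m) := by
      have : v.Reg (1 - h ^ m) := by
        rw [sub_eq_add_neg]
        exact v.reg_add v.reg_one (v.reg_neg rs)
      exact (v.reg_iff hone).1 this
    have hpos : 0 < v.ord (1 - h ^ m) := by omega
    obtain ⟨a1, a2⟩ := aa_one v h2 h3 hpos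
    have hne : aT δ m h ≠ 0 := mul_ne_zero (pow_ne_zero _ hd0) a1
    apply TH943.TT.condExp_mult hΔ one_ne_zero hA hB hne
    rw [one_pow, one_mul]
    unfold aT
    rw [v.ord_mul (pow_ne_zero _ hd0) a1, v.ord_pow, od, a2]
    norm_num

/-- the exponent at the zeros of `h`, no twist -/
theorem exp_zero (h6 : (6 : k) ≠ 0) {m : ℕ} {h : K} (hh : h ≠ 0)
    (hΔ : 4 * aT 0 m h ^ 3 + 27 * bT 0 m h ^ 2 ≠ 0) (v : FF.Place k K) (hv : 0 < v.ord h)
    (hm : 0 < m) : condExp v (aT 0 m h) (bT 0 m h) ≤ 1 := by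
  have h3 : (3 : k) ≠ 0 := fun e => h6 (by linear_combination 2 * e)
  have hs0 : h ^ m ≠ 0 := pow_ne_zero _ hh
  have os : 0 < v.ord (h ^ m) := by
    rw [v.ord_pow]
    exact mul_pos (by exact_mod_cast hm) hv
  have rs : v.Reg (h ^ m) := Or.inr os.le
  obtain ⟨a1, a2⟩ := aa_zero v h3 os
  have ea : aT 0 m h = aa (h ^ m) := by unfold aT; rw [pow_zero, one_pow, one_mul]
  have eb : bT 0 m h = bb (h ^ m) := by unfold bT; rw [pow_zero, one_pow, one_mul]
  rw [ea, eb] at hΔ ⊢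
  apply TH943.TT.condExp_mult hΔ one_ne_zero
  · rw [one_pow, one_mul]; exact reg_aa v h3 rs
  · rw [one_pow, one_mul]; exact reg_bb v h3 rs
  · exact a1
  · rw [one_pow, one_mul]; exact a2

theorem upper (h6 : (6 : k) ≠ 0) (hc : constDeg k K = 1) (hcl : Odd (S.classNumber k K)) {m : ℕ}
    (hm : 0 < m) {μ : k} (hμ : IsPrimitiveRoot μ m) {h : K} (hA : Adm k m h) {δ : ℕ} (hδ : δ ≤ 1)
    (M : ℕ) (hM : S.VanishesTo k (aT δ m h) (bT δ m h) M) : M + 1 ≤ m + δ := by
  classical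
  have h2 : (2 : k) ≠ 0 := fun e => h6 (by linear_combination 3 * e)
  have h3 : (3 : k) ≠ 0 := fun e => h6 (by linear_combination 2 * e)
  have h2K : (2 : K) ≠ 0 := by
    have : algebraMap k K 2 ≠ 0 := by simpa using h2
    rwa [map_ofNat] at this
  have h3K : (3 : K) ≠ 0 := by
    have : algebraMap k K 3 ≠ 0 := by simpa using h3
    rwa [map_ofNat] at this
  have h4K : (4 : K) ≠ 0 := by
    have : (4 : K) = 2 ^ 2 := by norm_num
    rw [this]
    exact pow_ne_zero 2 h2K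
  obtain ⟨v0, hv0, hv0o, hv0d, hv0u⟩ := hA.zero
  obtain ⟨vi, hvi, hvid, hviu⟩ := hA.pole
  have hh0 : h ≠ 0 := ne_of_pos v0 hv0.ne'
  have hneg : vi.ord (h ^ m) < 0 := by
    rw [vi.ord_pow]
    exact mul_neg_of_pos_of_neg (by exact_mod_cast hm) hvi
  have hone : 1 - h ^ m ≠ 0 := (ord_one_sub vi hneg).1
  have hΔ : 4 * aT δ m h ^ 3 + 27 * bT δ m h ^ 2 ≠ 0 := by
    rw [disc_T h3K]
    exact neg_ne_zero.2 (mul_ne_zero h4K (mul_ne_zero (pow_ne_zero _ (pow_ne_zero _ hh0))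
      (mul_ne_zero (pow_ne_zero _ hh0) (pow_ne_zero _ hone))))
  have hb := TH943.TT.bound_two h6 hΔ (root_T h3K δ m h) hc hcl hM
  set S0 := nthRootsFinset m (1 : k) with hS0
  have hS0' : ∀ z : k, z ∈ S0 ↔ z ^ m = 1 := fun z => by
    rw [hS0, mem_nthRootsFinset hm]
  have hch : ∀ z : k, ∃ v : FF.Place k K, z ∈ S0 → (0 < v.ord (h - algebraMap k K z) ∧
      Odd (v.ord (h - algebraMap k K z)) ∧ Odd (S.deg v) ∧
      ∀ w : FF.Place k K, 0 < w.ord (h - algebraMap k K z) → w = v) := by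
    intro z
    by_cases hz : z ∈ S0
    · obtain ⟨v, hv⟩ := hA.shift z ((hS0' z).1 hz)
      exact ⟨v, fun _ => hv⟩
    · exact ⟨v0, fun h => absurd h hz⟩
  choose V hV using hch
  have hz0 : ∀ z ∈ S0, z ≠ 0 := by
    rintro z hz rfl
    have := (hS0' 0).1 hz
    rw [zero_pow hm.ne'] at this
    exact zero_ne_one this
  have hsh0 : ∀ z : k, h - algebraMap k K z ≠ 0 := by
    intro z e
    have h1 : h = algebraMap k K z := by linear_combination e
    rw [h1] at hvi
    by_cases hz : z = 0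
    · rw [hz, map_zero, vi.ord_zero] at hvi
      exact lt_irrefl _ hvi
    · rw [vi.ord_const hz] at hvi
      exact lt_irrefl _ hvi
  set B : Finset (FF.Place k K) := (bad_finite (k := k) hΔ).toFinset with hBdef
  have hB : ∀ v, v ∈ B ↔ v.red (minDisc v (aT δ m h) (bT δ m h)) = 0 := by
    intro v
    rw [hBdef, Set.Finite.mem_toFinset]
    rfl
  rw [condSum_eq hΔ B hB] at hb
  set B' : Finset (FF.Place k K) := insert vi (insert v0 (S0.image V)) with hB'
  set F : FF.Place k K → ℕ := fun v => condExp v (aT δ m h) (bT δ m h) * twoPart v.deg with hF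
  have hsub : ∑ v ∈ B, F v ≤ ∑ v ∈ B', F v := by
    have h1 : ∑ v ∈ B, F v = ∑ v ∈ B ∩ B', F v := by
      symm
      apply Finset.sum_subset Finset.inter_subset_left
      intro v hv hv'
      have hvB' : v ∉ B' := fun h => hv' (Finset.mem_inter.2 ⟨hv, h⟩)
      rw [hB', Finset.mem_insert, Finset.mem_insert, Finset.mem_image] at hvB'
      push Not at hvB'
      obtain ⟨g1, g2, g3⟩ := hvB'
      rw [hF]
      simp only
      have : condExp v (aT δ m h) (bT δ m h) = 0 := by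
        rcases lt_trichotomy (v.ord h) 0 with hn | hz | hp
        · apply exp_pole h6 hh0 hΔ v hn _ hm
          by_contra h4
          exact g1 (hviu v hn h4)
        · apply (exp_unit h6 hh0 hΔ v hz).2
          rw [one_sub_eq hm hμ h, v.ord_neg, T4.ord_prod v _ _ (fun z _ => hsh0 _)]
          apply Finset.sum_eq_zero
          intro z hz'
          have h1 := ord_nonneg_sub v hz.ge z
          have h3 : ¬ 0 < v.ord (h - algebraMap k K z) := fun h5 =>
            g3 z hz' ((hV z hz').2.2.2 v h5).symm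
          omega
        · exact absurd (hv0u v hp) g2
      rw [this, zero_mul]
    rw [h1]
    exact Finset.sum_le_sum_of_subset Finset.inter_subset_right
  have f1 : F vi ≤ 2 := by
    rw [hF]
    simp only
    rw [← S.deg_eq, twoPart_odd hvid, mul_one]
    exact condExp_le _ _ _
  have f2 : F v0 ≤ 1 + δ := by
    rw [hF]
    simp only
    rw [← S.deg_eq, twoPart_odd hv0d, mul_one]
    rcases Nat.eq_zero_or_pos δ with h0 | h0
    · subst h0
      exact exp_zero h6 hh0 hΔ v0 hv0 hm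
    · have : δ = 1 := by omega
      subst this
      exact condExp_le _ _ _
  have f3 : ∀ z ∈ S0, F (V z) ≤ 1 := by
    intro z hz
    obtain ⟨g1, g2, g3, g4⟩ := hV z hz
    have e0 := (ord_of_zero (V z) g1 (hz0 z hz)).2
    rw [hF]
    simp only
    rw [← S.deg_eq, twoPart_odd g3, mul_one]
    exact (exp_unit h6 hh0 hΔ (V z) e0).1
  have hcard : S0.card = m := hμ.card_nthRootsFinset
  have f4 : ∑ v ∈ S0.image V, F v ≤ m := by
    calc ∑ v ∈ S0.image V, F v ≤ ∑ v ∈ S0.image V, 1 := by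
          refine Finset.sum_le_sum fun v hv => ?_
          obtain ⟨z, hz, rfl⟩ := Finset.mem_image.1 hv
          exact f3 z hz
      _ = (S0.image V).card := by rw [Finset.sum_const, smul_eq_mul, mul_one]
      _ ≤ S0.card := Finset.card_image_le
      _ = m := hcard
  have f5 : ∑ v ∈ B', F v ≤ F vi + (F v0 + ∑ v ∈ S0.image V, F v) :=
    (sum_insert_le _ _ _).trans (Nat.add_le_add_left (sum_insert_le _ _ _) _)
  have f6 : M + 4 ≤ ∑ v ∈ B, F v := hb
  omega

end upper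

end Pool.Agent.TH958.T5
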