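import Pool.Agent.TH958.T5.Idn
import Pool.Agent.TH958.T5.Alg
import Pool.Agent.TH958.T5.Ub
import Pool.Agent.TH958.T4.Lb

/-!
Independent points on `y ^ 2 = x ((x - 1) ^ 2 - h ^ m)` and its twist by `h`, `2 m = p ^ ν + 1`.
-/

set_option autoImplicit false
set_option linter.all false
set_option maxHeartbeats 4000000

open Polynomial WeierstrassCurve WeierstrassCurve.Affine
open scoped Classical

namespace Pool.Agent.TH958.T5

open Pool.Agent.W343.BSD Pool.Agent.W309.RK Pool.Agent.W313.Gr Pool.Agent.TH958.T4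

section pts

variable {K : Type} [Field K]

/-- The twisted curve in short form. -/
def crvT (δ m : ℕ) (h : K) : WeierstrassCurve K := ⟨0, 0, 0, aT δ m h, bT δ m h⟩

/-- the abscissa of the point of order two -/
def ee (δ : ℕ) (h : K) : K := -(2 / 3) * h ^ δ

theorem hasRoot (h3 : (3 : K) ≠ 0) (δ m : ℕ) (h : K) :
    HasRoot (crvT δ m h).toAffine (ee δ h) where
  a1 := rfl
  a3 := rfl
  root := by
    show (ee δ h) ^ 3 + 0 * (ee δ h) ^ 2 + aT δ m h * (ee δ h) + bT δ m h = 0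
    have := root_T h3 δ m h
    unfold ee
    linear_combination this

/-- the equation in terms of `x` -/
theorem short_T (h3 : (3 : K) ≠ 0) (δ m : ℕ) (h x : K) :
    (h ^ δ * (x - 2 / 3)) ^ 3 + aT δ m h * (h ^ δ * (x - 2 / 3)) + bT δ m h =
      (h ^ δ) ^ 3 * (x * ((x - 1) ^ 2 - h ^ m)) := by
  unfold aT bT aa bb
  have h27 : (27 : K) ≠ 0 := by
    have : (27 : K) = 3 ^ 3 := by norm_num
    rw [this]
    exact pow_ne_zero 3 h3
  field_simp
  ring

theorem delta_ne (h2 : (2 : K) ≠ 0) {δ m : ℕ} {h : K}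
    (hΔ : 4 * aT δ m h ^ 3 + 27 * bT δ m h ^ 2 ≠ 0) : (crvT δ m h).Δ ≠ 0 := by
  have e : (crvT δ m h).Δ = -(2 ^ 4 * (4 * aT δ m h ^ 3 + 27 * bT δ m h ^ 2)) := by
    simp only [crvT, WeierstrassCurve.Δ, WeierstrassCurve.b₂, WeierstrassCurve.b₄,
      WeierstrassCurve.b₆, WeierstrassCurve.b₈]
    ring
  rw [e]
  exact neg_ne_zero.2 (mul_ne_zero (pow_ne_zero _ h2) hΔ)

/-- a point with given `x` -/
theorem pt_T (h2 : (2 : K) ≠ 0) (h3 : (3 : K) ≠ 0) {δ m : ℕ} {h : K} (hh : h ≠ 0)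
    (hΔ : 4 * aT δ m h ^ 3 + 27 * bT δ m h ^ 2 ≠ 0) {x Y : K} (hx : x ≠ 0)
    (hY : Y ^ 2 = (h ^ δ) ^ 3 * (x * ((x - 1) ^ 2 - h ^ m))) :
    ∃ P : (crvT δ m h).toAffine.Point, del (crvT δ m h).toAffine (ee δ h) P = h ^ δ * x := by
  have hE : (crvT δ m h).toAffine.Equation (h ^ δ * (x - 2 / 3)) Y := by
    rw [equation_iff]
    show Y ^ 2 + 0 * _ * Y + 0 * Y = _ ^ 3 + 0 * _ ^ 2 + aT δ m h * _ + bT δ m h
    have := short_T h3 δ m h x
    linear_combination hY - this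
  have hn := (equation_iff_nonsingular_of_Δ_ne_zero (delta_ne h2 hΔ)).1 hE
  refine ⟨Point.some _ Y hn, ?_⟩
  have e : h ^ δ * (x - 2 / 3) - ee δ h = h ^ δ * x := by unfold ee; ring
  have hne : h ^ δ * x ≠ 0 := mul_ne_zero (pow_ne_zero _ hh) hx
  simp only [del]
  rw [if_neg (fun h1 => hne (by rw [← e, h1, sub_self])), e]

/-- at most one point of order two -/
theorem card_two (h2 : (2 : K) ≠ 0) (h3 : (3 : K) ≠ 0) {δ m : ℕ} {h : K} (hh : h ≠ 0)
    (hsq : ∀ c : K, c ^ 2 ≠ h ^ m) :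
    Set.Finite {P : (crvT δ m h).toAffine.Point | P + P = 0} ∧
      Set.ncard {P : (crvT δ m h).toAffine.Point | P + P = 0} ≤ 2 := by
  have hr := hasRoot h3 δ m h
  have key : ∀ P : (crvT δ m h).toAffine.Point, P + P = 0 → P = 0 ∨
      ∃ (hn : (crvT δ m h).toAffine.Nonsingular (ee δ h) 0), P = Point.some _ 0 hn := by
    intro P hP
    rcases P with _ | ⟨x, y, hxy⟩
    · left; rfl
    right
    have hy : y = 0 := by
      by_contra hy
      have hne : y ≠ (crvT δ m h).toAffine.negY x y := by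
        rw [hr.negY]
        intro h1
        have : (2 : K) * y = 0 := by linear_combination h1
        rcases mul_eq_zero.1 this with h3 | h3
        · exact h2 h3
        · exact hy h3
      rw [Point.add_self_of_Y_ne hne] at hP
      exact absurd hP (Point.some_ne_zero _)
    subst hy
    have hd0 : h ^ δ ≠ 0 := pow_ne_zero _ hh
    have hx : x = ee δ h := by
      by_contra hne
      have h1 := hr.equation0 hxy.1
      have h1' : (0 : K) ^ 2 = x ^ 3 + 0 * x ^ 2 + aT δ m h * x + bT δ m h := h1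
      set t := x / h ^ δ + 2 / 3 with ht
      have hxt : x = h ^ δ * (t - 2 / 3) := by
        rw [ht]; field_simp; ring
      have h5 := short_T h3 δ m h t
      rw [← hxt] at h5
      have h6 : (h ^ δ) ^ 3 * (t * ((t - 1) ^ 2 - h ^ m)) = 0 := by
        rw [← h5]; linear_combination -h1'
      rcases mul_eq_zero.1 h6 with h7 | h7
      · exact pow_ne_zero 3 hd0 h7
      rcases mul_eq_zero.1 h7 with h8 | h8
      · apply hne
        rw [hxt, h8]
        unfold ee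
        ring
      · exact hsq (t - 1) (sub_eq_zero.1 h8)
    subst hx
    exact ⟨hxy, rfl⟩
  let g : Bool → (crvT δ m h).toAffine.Point := fun o => match o with
    | false => 0
    | true => if hn : (crvT δ m h).toAffine.Nonsingular (ee δ h) 0 then Point.some _ 0 hn else 0
  have hsub : {P : (crvT δ m h).toAffine.Point | P + P = 0} ⊆ Set.range g := by
    intro P hP
    rcases key P hP with rfl | ⟨hn, rfl⟩
    · exact ⟨false, rfl⟩
    · refine ⟨true, ?_⟩
      show (if hn : _ then _ else _) = _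
      rw [dif_pos hn]
  have hfin : (Set.range g).Finite := Set.finite_range g
  refine ⟨hfin.subset hsub, (Set.ncard_le_ncard hsub hfin).trans ?_⟩
  have h5 : (Set.range g).ncard ≤ Nat.card Bool := by
    rw [← Set.image_univ]
    refine (Set.ncard_image_le (Set.finite_univ)).trans ?_
    rw [Set.ncard_univ]
  simpa using h5

end pts

section low

variable {k K : Type} [Field k] [Field K] [Algebra k K]

/-- the non-vanishing conditions -/
theorem cond_w {p : ℕ} [Fact p.Prime] [CharP K p] (h2 : (2 : K) ≠ 0) {ν l : ℕ}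
    (hQ : p ^ ν = 4 * l + 1) (hl : 0 < l) (v : FF.Place k K) {w : K} (hv : v.ord w < 0) :
    w ≠ 0 ∧ 1 - w ≠ 0 ∧ (cs w l).1 ≠ 0 ∧ (cs w l).2 ≠ 0 ∧
      (cs w l).1 ^ 2 + (cs w l).2 ^ 2 * w ≠ 0 ∧ 1 - ((cs w l).1 ^ 2 - w * (cs w l).2 ^ 2) ≠ 0 ∧
      1 + ((cs w l).1 ^ 2 - w * (cs w l).2 ^ 2) ≠ 0 := by
  have hw : w ≠ 0 := ne_of_pos v hv.ne
  obtain ⟨r1, r2⟩ := rel h2 hQ hw
  have hlZ : (0 : ℤ) < l := by exact_mod_cast hl
  have hW : w ^ (2 * l) ≠ 1 := by
    intro e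
    have := congrArg v.ord e
    rw [v.ord_pow, v.ord_one] at this
    have h3 : ((2 * l : ℕ) : ℤ) * v.ord w < 0 :=
      mul_neg_of_pos_of_neg (by push_cast; omega) hv
    omega
  have hβ : be (cs w l).1 (cs w l).2 w ≠ 0 := by
    intro e
    rw [e] at r1 r2
    rw [mul_zero, add_zero] at r1
    rw [add_zero, r1] at r2
    exact hW r2.symm
  have o1 := ord_one_sub v hv
  have hneg : v.ord ((1 - w) ^ l) < 0 := by
    rw [v.ord_pow, o1.2]
    exact mul_neg_of_pos_of_neg hlZ hv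
  have hpm := ord_one_sub v hneg
  have hpp := ord_one_add v hneg
  rw [cs_norm]
  unfold be at hβ
  refine ⟨hw, o1.1, ?_, ?_, ?_, hpm.1, hpp.1⟩
  · intro e
    apply hβ
    rw [e]; ring
  · intro e
    apply hβ
    rw [e]; ring
  · intro e
    apply hβ
    rw [e]; ring

theorem exists_sum {p : ℕ} [Fact p.Prime] [CharP K p] (h2 : (2 : K) ≠ 0) {ν l : ℕ}
    (hQ : p ^ ν = 4 * l + 1) (hl : 0 < l) (v : FF.Place k K) {w : K} (hv : v.ord w < 0) :
    ∃ A Y : K, A ≠ 0 ∧ Y ^ 2 = ((1 - w) * A ^ 2) * (((1 - w) * A ^ 2 - 1) ^ 2 - w ^ (2 * l + 1)) := by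
  obtain ⟨c1, c2, c3, c4, c5, c6, c7⟩ := cond_w h2 hQ hl v hv
  obtain ⟨r1, r2⟩ := rel h2 hQ c1
  obtain ⟨Y, hY⟩ := pt_sum h2 r1 r2 c3 c4 c1 c5 c6
  have h4 : (4 : K) ≠ 0 := by
    have : (4 : K) = 2 ^ 2 := by norm_num
    rw [this]
    exact pow_ne_zero 2 h2
  refine ⟨_, Y, div_ne_zero (mul_ne_zero (mul_ne_zero (mul_ne_zero h4 c3) (pow_ne_zero 2 c4)) c1)
    c6, ?_⟩
  rw [hY, pow_succ w (2 * l), mul_comm w (w ^ (2 * l))]

theorem exists_dif {p : ℕ} [Fact p.Prime] [CharP K p] (h2 : (2 : K) ≠ 0) {ν l : ℕ}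
    (hQ : p ^ ν = 4 * l + 1) (hl : 0 < l) (v : FF.Place k K) {w : K} (hv : v.ord w < 0) :
    ∃ A Y : K, A ≠ 0 ∧ w * Y ^ 2 =
      (w * (1 - w) * A ^ 2) * ((w * (1 - w) * A ^ 2 - 1) ^ 2 - w ^ (2 * l + 1)) := by
  obtain ⟨c1, c2, c3, c4, c5, c6, c7⟩ := cond_w h2 hQ hl v hv
  obtain ⟨r1, r2⟩ := rel h2 hQ c1
  obtain ⟨Y, hY⟩ := pt_dif h2 r1 r2 c3 c4 c1 c5 c7
  have h4 : (4 : K) ≠ 0 := by
    have : (4 : K) = 2 ^ 2 := by norm_num
    rw [this]
    exact pow_ne_zero 2 h2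
  refine ⟨_, Y, div_ne_zero (mul_ne_zero (mul_ne_zero h4 (pow_ne_zero 2 c3)) c4)
    c7, ?_⟩
  rw [hY, pow_succ w (2 * l), mul_comm w (w ^ (2 * l))]

variable (h6 : (6 : k) ≠ 0) {p : ℕ} [Fact p.Prime] [CharP k p] {ν l : ℕ} (hQ : p ^ ν = 4 * l + 1)
  (hl : 0 < l) {h : K}

/-- facts about `h` -/
theorem facts (h6 : (6 : k) ≠ 0) {m : ℕ} (hm : Odd m) (hA : Adm k m h) :
    (2 : K) ≠ 0 ∧ (3 : K) ≠ 0 ∧ h ≠ 0 ∧ (∀ c : k, h ≠ algebraMap k K c) ∧
      (∀ c : K, c ^ 2 ≠ h ^ m) ∧ (∀ δ : ℕ, 4 * aT δ m h ^ 3 + 27 * bT δ m h ^ 2 ≠ 0) := by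
  have h2 : (2 : k) ≠ 0 := fun e => h6 (by linear_combination 3 * e)
  have h3 : (3 : k) ≠ 0 := fun e => h6 (by linear_combination 2 * e)
  have h2K : (2 : K) ≠ 0 := by
    have : algebraMap k K 2 ≠ 0 := by simpa using h2
    rwa [map_ofNat] at this
  have h3K : (3 : K) ≠ 0 := by
    have : algebraMap k K 3 ≠ 0 := by simpa using h3
    rwa [map_ofNat] at this
  have h4K : (4 : K) ≠ 0 := by
    have : (4 : K) = 2 ^ 2 := by norm_num
    rw [this]
    exact pow_ne_zero 2 h2K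
  obtain ⟨v0, hv0, hv0o, hv0d, hv0u⟩ := hA.zero
  obtain ⟨vi, hvi, hvid, hviu⟩ := hA.pole
  have hh0 : h ≠ 0 := ne_of_pos v0 hv0.ne'
  have hneg : vi.ord (h ^ m) < 0 := by
    rw [vi.ord_pow]
    exact mul_neg_of_pos_of_neg (by exact_mod_cast hm.pos) hvi
  have hone : 1 - h ^ m ≠ 0 := (ord_one_sub vi hneg).1
  refine ⟨h2K, h3K, hh0, ?_, ?_, ?_⟩
  · intro c e
    rw [e] at hvi
    by_cases hc : c = 0
    · rw [hc, map_zero, vi.ord_zero] at hvi
      exact lt_irrefl _ hvi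
    · rw [vi.ord_const hc] at hvi
      exact lt_irrefl _ hvi
  · intro c e
    have := congrArg v0.ord e
    rw [v0.ord_pow, v0.ord_pow] at this
    have h5 : Odd ((m : ℤ) * v0.ord h) := Odd.mul (by exact_mod_cast hm) hv0o
    rw [← this] at h5
    have h7 : Even (((2 : ℕ) : ℤ) * v0.ord c) := by
      push_cast
      exact even_two_mul _
    exact (Int.not_odd_iff_even.2 h7) h5
  · intro δ
    rw [disc_T h3K]
    exact neg_ne_zero.2 (mul_ne_zero h4K (mul_ne_zero (pow_ne_zero _ (pow_ne_zero _ hh0))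
      (mul_ne_zero (pow_ne_zero _ hh0) (pow_ne_zero _ hone))))

include h6 hQ hl in
/-- the points on the curve -/
theorem pts_zero (hA : Adm k (2 * l + 1) h) {ζ : k} (hζ : ζ ^ (2 * l + 1) = 1) :
    ∃ P : (crvT 0 (2 * l + 1) h).toAffine.Point, ∀ v : FF.Place k K,
      ((v.ord (del _ (ee 0 h) P) : ℤ) : ZMod 2) =
        ((v.ord (h - algebraMap k K ζ) : ℤ) : ZMod 2) := by
  obtain ⟨h2, h3, hh, hhc, hsq, hΔ⟩ := facts h6 (odd_two_mul_add_one l) hA
  obtain ⟨vi, hvi, hvid, hviu⟩ := hA.pole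
  have hinj : Function.Injective (algebraMap k K) := (algebraMap k K).injective
  haveI : CharP K p := charP_of_injective_ringHom hinj p
  have hζ0 : ζ ≠ 0 := by
    rintro rfl
    rw [zero_pow (by omega)] at hζ
    exact zero_ne_one hζ
  have hζK : algebraMap k K ζ⁻¹ ≠ 0 := (map_ne_zero (algebraMap k K)).2 (inv_ne_zero hζ0)
  have hinv : algebraMap k K ζ⁻¹ * algebraMap k K ζ = 1 := by
    rw [← map_mul, inv_mul_cancel₀ hζ0, map_one]
  set w : K := algebraMap k K ζ⁻¹ * h with hw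
  have hwi : vi.ord w < 0 := by
    rw [hw, vi.ord_mul hζK hh, vi.ord_const (inv_ne_zero hζ0), zero_add]; exact hvi
  obtain ⟨A, Y, hA0, hY⟩ := exists_sum h2 hQ hl vi hwi
  have hws : w ^ (2 * l + 1) = h ^ (2 * l + 1) := by
    rw [hw, mul_pow, ← map_pow, inv_pow, hζ, inv_one, map_one, one_mul]
  have hw1 : 1 - w ≠ 0 := (ord_one_sub vi hwi).1
  rw [hws] at hY
  obtain ⟨P, hP⟩ := pt_T h2 h3 hh (hΔ 0) (x := (1 - w) * A ^ 2) (Y := Y)
    (mul_ne_zero hw1 (pow_ne_zero _ hA0)) (by rw [hY, pow_zero, one_pow, one_mul])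
  refine ⟨P, fun v => ?_⟩
  have e : (1 - w) = algebraMap k K (-ζ⁻¹) * (h - algebraMap k K ζ) := by
    rw [hw, map_neg]; linear_combination -hinv
  have hH0 : h - algebraMap k K ζ ≠ 0 := sub_ne_zero.2 (hhc ζ)
  have hcK : algebraMap k K (-ζ⁻¹) ≠ 0 :=
    (map_ne_zero (algebraMap k K)).2 (neg_ne_zero.2 (inv_ne_zero hζ0))
  rw [hP, pow_zero, one_mul, v.ord_mul hw1 (pow_ne_zero _ hA0), v.ord_pow, e,
    v.ord_mul hcK hH0, v.ord_const (neg_ne_zero.2 (inv_ne_zero hζ0))]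
  push_cast
  linear_combination ((v.ord A : ℤ) : ZMod 2) * two0

include h6 hQ hl in
/-- the points on the twist -/
theorem pts_one (hA : Adm k (2 * l + 1) h) {ζ : k} (hζ : ζ ^ (2 * l + 1) = 1) :
    ∃ P : (crvT 1 (2 * l + 1) h).toAffine.Point, ∀ v : FF.Place k K,
      ((v.ord (del _ (ee 1 h) P) : ℤ) : ZMod 2) =
        ((v.ord (h - algebraMap k K ζ) : ℤ) : ZMod 2) := by
  obtain ⟨h2, h3, hh, hhc, hsq, hΔ⟩ := facts h6 (odd_two_mul_add_one l) hA
  obtain ⟨vi, hvi, hvid, hviu⟩ := hA.pole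
  have hinj : Function.Injective (algebraMap k K) := (algebraMap k K).injective
  haveI : CharP K p := charP_of_injective_ringHom hinj p
  have hζ0 : ζ ≠ 0 := by
    rintro rfl
    rw [zero_pow (by omega)] at hζ
    exact zero_ne_one hζ
  have hζK : algebraMap k K ζ⁻¹ ≠ 0 := (map_ne_zero (algebraMap k K)).2 (inv_ne_zero hζ0)
  have hinv : algebraMap k K ζ⁻¹ * algebraMap k K ζ = 1 := by
    rw [← map_mul, inv_mul_cancel₀ hζ0, map_one]
  set w : K := algebraMap k K ζ⁻¹ * h with hw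
  have hwi : vi.ord w < 0 := by
    rw [hw, vi.ord_mul hζK hh, vi.ord_const (inv_ne_zero hζ0), zero_add]; exact hvi
  have hw0 : w ≠ 0 := mul_ne_zero hζK hh
  obtain ⟨A, Y, hA0, hY⟩ := exists_dif h2 hQ hl vi hwi
  have hws : w ^ (2 * l + 1) = h ^ (2 * l + 1) := by
    rw [hw, mul_pow, ← map_pow, inv_pow, hζ, inv_one, map_one, one_mul]
  have hw1 : 1 - w ≠ 0 := (ord_one_sub vi hwi).1
  rw [hws] at hY
  -- a square root of `ζ⁻¹`
  set r : K := algebraMap k K (ζ⁻¹ ^ (l + 1)) with hr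
  have hr2 : r ^ 2 = algebraMap k K ζ⁻¹ := by
    rw [hr, ← map_pow]
    congr 1
    rw [← pow_mul, show (l + 1) * 2 = (2 * l + 1) + 1 by ring, pow_succ, inv_pow, hζ, inv_one,
      one_mul]
  obtain ⟨P, hP⟩ := pt_T h2 h3 hh (hΔ 1) (x := w * (1 - w) * A ^ 2) (Y := h ^ 2 * r * Y)
    (mul_ne_zero (mul_ne_zero hw0 hw1) (pow_ne_zero _ hA0)) (by
      rw [← hY, pow_one, hw, ← hr2]
      ring)
  refine ⟨P, fun v => ?_⟩
  have e : h * (w * (1 - w) * A ^ 2) = (h * A) ^ 2 * (algebraMap k K (-(ζ⁻¹ * ζ⁻¹)) *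
      (h - algebraMap k K ζ)) := by
    rw [hw, map_neg, map_mul]
    linear_combination (-(algebraMap k K ζ⁻¹ * h ^ 2 * A ^ 2)) * hinv
  have hH0 : h - algebraMap k K ζ ≠ 0 := sub_ne_zero.2 (hhc ζ)
  have hc : -(ζ⁻¹ * ζ⁻¹) ≠ 0 := neg_ne_zero.2 (mul_ne_zero (inv_ne_zero hζ0) (inv_ne_zero hζ0))
  have hcK : algebraMap k K (-(ζ⁻¹ * ζ⁻¹)) ≠ 0 := (map_ne_zero (algebraMap k K)).2 hc
  rw [hP, pow_one, e, v.ord_mul (pow_ne_zero _ (mul_ne_zero hh hA0)) (mul_ne_zero hcK hH0),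
    v.ord_pow, v.ord_mul hcK hH0, v.ord_const hc]
  push_cast
  linear_combination ((v.ord (h * A) : ℤ) : ZMod 2) * two0

include h6 in
/-- the extra point on the twist -/
theorem pts_R (hA : Adm k (2 * l + 1) h) {i : k} (hi : i ^ 2 = -1) :
    ∃ P : (crvT 1 (2 * l + 1) h).toAffine.Point, del _ (ee 1 h) P = h := by
  obtain ⟨h2, h3, hh, hhc, hsq, hΔ⟩ := facts h6 (odd_two_mul_add_one l) hA
  have hiK : (algebraMap k K i) ^ 2 = -1 := by rw [← map_pow, hi, map_neg, map_one]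
  obtain ⟨P, hP⟩ := pt_T h2 h3 hh (hΔ 1) (x := 1) (Y := algebraMap k K i * h ^ (l + 2))
    one_ne_zero (by
      rw [mul_pow, hiK, pow_one]
      ring)
  exact ⟨P, by rw [hP, pow_one, mul_one]⟩

include h6 hQ hl in
theorem lower_zero {μ : k} (hμ : IsPrimitiveRoot μ (2 * l + 1)) (hA : Adm k (2 * l + 1) h) :
    ∃ P : Fin (2 * l) → (crvT 0 (2 * l + 1) h).toAffine.Point, LinearIndependent ℤ P := by
  obtain ⟨h2, h3, hh, hhc, hsq, hΔ⟩ := facts h6 (odd_two_mul_add_one l) hA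
  have hpos : 0 < 2 * l + 1 := by omega
  let ι := {z : k // z ∈ nthRootsFinset (2 * l + 1) (1 : k)}
  letI : Fintype ι := Finset.Subtype.fintype _
  have hι : ∀ z : ι, z.1 ^ (2 * l + 1) = 1 := fun z => (mem_nthRootsFinset hpos 1).1 z.2
  have hcard : Fintype.card ι = 2 * l + 1 := by
    rw [Fintype.card_coe, hμ.card_nthRootsFinset]
  have hsh := fun z : ι => hA.shift z.1 (hι z)
  choose V hV1 hV2 hV3 hV4 using hsh
  let φ : (crvT 0 (2 * l + 1) h).toAffine.Point →+ (ι → ZMod 2) :=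
    AddMonoidHom.pi fun z => parHom (hasRoot h3 0 (2 * l + 1) h) (V z).ord
      (fun f g hf hg => (V z).ord_mul hf hg)
  choose P hP using fun z : ι => pts_zero h6 hQ hl hA (hι z)
  have v4 : ∀ z w : ι, φ (P z) w = if w = z then 1 else 0 := by
    intro z w
    show (((V w).ord (del _ _ (P z)) : ℤ) : ZMod 2) = _
    rw [hP z (V w)]
    by_cases hwz : w = z
    · subst hwz
      rw [if_pos rfl, cast_odd (hV2 w)]
    · rw [if_neg hwz, (ord_shift (V w) (hV1 w) (fun e => hwz (Subtype.ext e))).2, Int.cast_zero]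
  have hsurj : Function.Surjective φ := surjective_of_single φ P v4
  obtain ⟨hf1, hf2⟩ := card_two (δ := 0) h2 h3 hh hsq
  have hfin := T5.exists_independent φ hsurj hf1 hf2
  have hcc : Fintype.card ι - 1 = 2 * l := by omega
  rw [hcc] at hfin
  exact hfin

include h6 hQ hl in
theorem lower_one {μ i : k} (hi : i ^ 2 = -1) (hμ : IsPrimitiveRoot μ (2 * l + 1))
    (hA : Adm k (2 * l + 1) h) :
    ∃ P : Fin (2 * l + 1) → (crvT 1 (2 * l + 1) h).toAffine.Point, LinearIndependent ℤ P := by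
  obtain ⟨h2, h3, hh, hhc, hsq, hΔ⟩ := facts h6 (odd_two_mul_add_one l) hA
  have hpos : 0 < 2 * l + 1 := by omega
  let ι := {z : k // z ∈ nthRootsFinset (2 * l + 1) (1 : k)}
  letI : Fintype ι := Finset.Subtype.fintype _
  have hι : ∀ z : ι, z.1 ^ (2 * l + 1) = 1 := fun z => (mem_nthRootsFinset hpos 1).1 z.2
  have hζ0 : ∀ z : ι, z.1 ≠ 0 := by
    intro z e
    have := hι z
    rw [e, zero_pow (by omega)] at this
    exact zero_ne_one this
  have hcard : Fintype.card ι = 2 * l + 1 := by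
    rw [Fintype.card_coe, hμ.card_nthRootsFinset]
  obtain ⟨v0, hv0, hv0o, hv0d, hv0u⟩ := hA.zero
  have hsh := fun z : ι => hA.shift z.1 (hι z)
  choose V hV1 hV2 hV3 hV4 using hsh
  let φo : Option ι → ((crvT 1 (2 * l + 1) h).toAffine.Point →+ ZMod 2) := fun o =>
    match o with
    | none => parHom (hasRoot h3 1 (2 * l + 1) h) v0.ord (fun f g hf hg => v0.ord_mul hf hg)
    | some z => parHom (hasRoot h3 1 (2 * l + 1) h) (V z).ord
        (fun f g hf hg => (V z).ord_mul hf hg)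
  let φ : (crvT 1 (2 * l + 1) h).toAffine.Point →+ (Option ι → ZMod 2) :=
    AddMonoidHom.pi φo
  choose P hP using fun z : ι => pts_one h6 hQ hl hA (hι z)
  obtain ⟨R, hR⟩ := pts_R h6 (l := l) hA hi
  have v1 : φ R none = 1 := by
    show ((v0.ord (del _ _ R) : ℤ) : ZMod 2) = 1
    rw [hR, cast_odd hv0o]
  have v2 : ∀ w : ι, φ R (some w) = 0 := by
    intro w
    show (((V w).ord (del _ _ R) : ℤ) : ZMod 2) = 0
    rw [hR, (ord_of_zero (V w) (hV1 w) (hζ0 w)).2, Int.cast_zero]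
  have v3 : ∀ z : ι, φ (P z) none = 0 := by
    intro z
    show ((v0.ord (del _ _ (P z)) : ℤ) : ZMod 2) = 0
    rw [hP z v0, (ord_sub_const v0 hv0 (hζ0 z)).2, Int.cast_zero]
  have v4 : ∀ z w : ι, φ (P z) (some w) = if w = z then 1 else 0 := by
    intro z w
    show (((V w).ord (del _ _ (P z)) : ℤ) : ZMod 2) = _
    rw [hP z (V w)]
    by_cases hwz : w = z
    · subst hwz
      rw [if_pos rfl, cast_odd (hV2 w)]
    · rw [if_neg hwz, (ord_shift (V w) (hV1 w) (fun e => hwz (Subtype.ext e))).2, Int.cast_zero]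
  have hsurj : Function.Surjective φ := by
    refine surjective_of_single φ (fun o => match o with
      | none => R
      | some z => P z) ?_
    intro o o'
    rcases o with _ | z
    · rcases o' with _ | w
      · rw [if_pos rfl]; exact v1
      · rw [if_neg (by simp)]; exact v2 w
    · rcases o' with _ | w
      · rw [if_neg (by simp)]; exact v3 z
      · show φ (P z) (some w) = _
        rw [v4]
        by_cases hwz : w = z
        · rw [if_pos hwz, if_pos (by rw [hwz])]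
        · rw [if_neg hwz, if_neg (fun e => hwz (Option.some.inj e))]
  obtain ⟨hf1, hf2⟩ := card_two (δ := 1) h2 h3 hh hsq
  have hfin := T5.exists_independent φ hsurj hf1 hf2
  have hcc : Fintype.card (Option ι) - 1 = 2 * l + 1 := by
    rw [Fintype.card_option, hcard]; omega
  rw [hcc] at hfin
  exact hfin

end low

end Pool.Agent.TH958.T5
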